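import Pool.Agent.Q188.BT.Density
import Pool.Agent.Q188.BT.Final
import Pool.Agent.Q188.BT.Abs
import Pool.Agent.Q188.BT.Body
import Pool.Agent.Q188.BT.Close
import Pool.Agent.Q188.BT.Compact
import Pool.Agent.Q188.BT.FromSupp
import Pool.Agent.Q188.BT.Hom
import Pool.Agent.Q188.BT.Inv
import Pool.Agent.Q188.BT.Perim
import Pool.Agent.Q188.BT.PhiBound
import Pool.Agent.Q188.BT.Polar
import Pool.Agent.Q188.BT.Pt
import Pool.Agent.Q188.BT.Ray
import Pool.Agent.Q188.BT.Reg
import Pool.Agent.Q188.BT.Simple
import Pool.Agent.Q188.BT.Strict
import Pool.Agent.Q188.BT.Support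
import Pool.Agent.Q188.BT.TaskComb
import Pool.Agent.Q188.BT.TaskDeriv
import Pool.Agent.Q188.BT.TaskFine
import Pool.Agent.Q188.BT.TaskMollify
import Pool.Agent.Q188.BT.TaskPhi
import Pool.Agent.Q188.BT.TaskPolarC
import Pool.Agent.Q188.BT.TaskSuppLe
import Pool.Agent.Q188.BT.TaskSuppProps
import Pool.Agent.Q188.BT.TaskTab
import Pool.Agent.Q188.BT.Width
import Pool.Agent.Q188.BT.Cut

/-!
MP_fd4af6_gt, Q1 (answer: yes). Every convex curve `C` of length `1`, parametrized counterclockwise by arc length, is the
uniform limit of a sequence of billiard tables which is Cauchy for the geometric distance `d_B`.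

Proof. A table is described by the arc length parameter `S t` of the point with tangent angle `t`, and a point `p`. The linear
interpolation of `(p, S)` (the Minkowski combination of the bodies) is a homotopy of tables, of length at most
`|p₁ - p₀| + |S₁ 0 - S₀ 0| + ∫_0^{2π} |S₁ - S₀|`. By compactness (monotone functions, Helly) every sequence of tables has a
subsequence which is Cauchy for this bound. So it is enough that `C` is a uniform limit of tables: smooth the support
function of the body bounded by `C`, and compare the arc length parameters along the rays from an interior point; the perimeter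
is controlled by Cauchy's formula for inscribed polygons.
-/

set_option autoImplicit false

open Complex MeasureTheory Set Filter Topology
open scoped Real ContDiff ENNReal

namespace Pool.Agent.Results.MP_fd4af6_gt.CauchyTables

open Pool.Agent.Q188.BT

/-- **Every convex curve is the uniform limit of a `d_B`-Cauchy sequence of billiard tables.** -/
theorem result (C : ℝ → ℂ) (hC : IsConvexCurve C) :
    ∃ α : ℕ → ℝ → ℂ, (∀ i, IsTable (α i)) ∧
      (∀ ε : ℝ≥0∞, 0 < ε → ∃ N : ℕ, ∀ i ≥ N, ∀ j ≥ N, dB (α i) (α j) < ε) ∧
      TendstoUniformly α C atTop := by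
  have hInv : TaskInv := Inv.main
  have hPt : TaskPt := Pt.main
  have hStrict : TaskStrict := Strict.main hPt
  have hLe : TaskSuppLe := taskSuppLe hPt hStrict
  have hReg : TaskReg := Reg.main hInv hPt
  have hBody : TaskBody := Body.main hPt hStrict hLe
  have hSimple : TaskSimple := Simple.main hInv hStrict
  have hTab : TaskTab := taskTab hInv hPt hReg hBody hSimple
  have hHom : TaskHom := Hom.main hInv hPt hTab taskComb TaskPhi.main (taskDeriv hPt)
  have hRay : TaskRay := Ray.main
  have hPolC : TaskPolarC := taskPolarC hRay
  have hPol : TaskPolar := Polar.main hInv hPt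
  have hSupport : TaskSupport := Support.main
  have hClose : TaskClose := Close.main hSupport
  have hProps : TaskSuppProps := taskSuppProps
  have hFine : TaskFine := TaskFine.main
  have hWidth : TaskWidth := Width.main hProps hFine
  have hPer : TaskPerim := Perim.main hWidth Abs.main hProps
  have hCut : TaskCut := Cut.main hFine
  have hPB : TaskPhiBound := PhiBound.main hFine hCut
  have hDens : TaskDensity := density hInv hReg hPolC hPol hClose hProps TaskMollify.main FromSupp.main hPer hPB hLe
  exact final hInv hReg hTab hHom Compact.main hDens C hC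

end Pool.Agent.Results.MP_fd4af6_gt.CauchyTables
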